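import Mathlib
import Pool.Agent.H242R3.ES.StmtsG

set_option autoImplicit false

/-! Ranks are combinatorial. -/

namespace Pool.Agent.H844R3.ES.G7

open Pool.Agent.H242R3.ES

theorem rk_empty {ι E : Type} [AddCommGroup E] [Module ℝ E] (V : ι → E) : rk V ∅ = 0 := by
  unfold rk
  rw [Set.image_empty, Submodule.span_empty]
  exact finrank_bot ℝ E

theorem rk_le (h3 : TaskG3) (h2 : TaskG2) (ι E E' : Type) [Fintype ι]
    [AddCommGroup E] [Module ℝ E] [FiniteDimensional ℝ E]
    [AddCommGroup E'] [Module ℝ E'] [FiniteDimensional ℝ E'] (V : ι → E) (V' : ι → E')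
    (h : ∀ S, Face V S ↔ Face V' S) (h0 : Face V ∅) (S : Set ι) (hS : Face V S)
    (hne : S.Nonempty) (ih : ∀ T, T ⊂ S → Face V T → rk V T = rk V' T) : rk V S ≤ rk V' S := by
  have hsub : (∅ : Set ι) ⊂ S := Set.empty_ssubset.mpr hne
  obtain ⟨-, T, -, hT, hS', hTS, hrk⟩ := h3 ι E V ∅ S h0 hS hsub
  have h4 := (h2 ι E' V' T S ((h T).mp hT) ((h S).mp hS)).2.1 hTS
  have h5 := ih T hTS hT
  omega

theorem t (h3 : TaskG3) (h2 : TaskG2) : TaskG7 := by
  intro ι E E' _ _ _ _ _ _ _ V V' h h0 S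
  have key : ∀ n : ℕ, ∀ S : Set ι, S.ncard = n → Face V S → rk V S = rk V' S := by
    intro n
    induction n using Nat.strong_induction_on with
    | _ n ih =>
      intro S hn hS
      rcases S.eq_empty_or_nonempty with rfl | hne
      · rw [rk_empty, rk_empty]
      · have ih' : ∀ T, T ⊂ S → Face V T → rk V T = rk V' T := by
          intro T hTS hT
          exact ih T.ncard (hn ▸ Set.ncard_lt_ncard hTS (Set.toFinite S)) T rfl hT
        have a1 := rk_le h3 h2 ι E E' V V' h h0 S hS hne ih'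
        have a2 := rk_le h3 h2 ι E' E V' V (fun S => (h S).symm) ((h ∅).mp h0) S ((h S).mp hS) hne
          (fun T hTS hT => (ih' T hTS ((h T).mpr hT)).symm)
        omega
  exact key _ S rfl

end Pool.Agent.H844R3.ES.G7
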